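import Pool.Agent.Run7.h105.PC.Defs

set_option autoImplicit false

open Filter Topology Set MeasureTheory
open scoped ENNReal
open Pool.Agent.Run7.h105.PC

namespace Run7.h712.PC

theorem cells_card (K : Set ℝ) (k : ℕ) : (cells K k).card ≤ k + 1 := by
  classical
  have h : cells K k ⊆ Finset.range (k + 1) := by
    intro i hi
    unfold cells at hi
    exact (Finset.mem_filter.1 hi).1
  have := Finset.card_le_card h
  rwa [Finset.card_range] at this

theorem t_LOW : S_LOWK → S_BOX → S_BAD2 → S_LOW := by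
  intro hLK hBox hBad2 s c hs hc K hK hKc ε hε
  have hs0 : 0 < s := by linarith
  obtain ⟨hc0, hcG, hcm⟩ := hc
  obtain ⟨m, hm1, hm⟩ := hcm (ε / 8) (by positivity)
  set lam : ℝ := (volume K).toReal with hlam
  have hl1 : lam ≤ 1 := by
    have h1 : volume K ≤ 1 := by
      refine (measure_mono hK).trans ?_
      rw [Real.volume_Icc]; norm_num
    exact ENNReal.toReal_le_of_le_ofReal zero_le_one (by simpa using h1)
  have hl0 : 0 ≤ lam := ENNReal.toReal_nonneg
  have hmR : (1:ℝ) ≤ m := by exact_mod_cast hm1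
  have hm0 : (0:ℝ) < m := by linarith
  obtain ⟨r, hr⟩ := exists_nat_gt (4 * c / ε)
  have hr0 : (0:ℝ) < r := lt_trans (by positivity) hr
  have hr1 : 1 ≤ r := by exact_mod_cast (Nat.cast_pos.1 hr0)
  have hcr : c / (r + 1) ≤ ε / 4 := by
    rw [div_le_div_iff₀ (by positivity) (by norm_num)]
    rw [div_lt_iff₀ hε] at hr
    nlinarith
  -- the limit
  set F : ℕ → ℝ := fun k => c * m * (r / (r + 1)) - c / k -
    (c + ε / 8) * m * (1 + 1 / k - ((cells K k).card : ℝ) / k) -
      (m + 1) * (((bad K k (m * r ^ 2)).card : ℝ) / k) with hF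
  have hp : 1 ≤ m * r ^ 2 := Nat.one_le_iff_ne_zero.2 (by positivity)
  have hT : Tendsto F atTop (𝓝 (c * m * (r / (r + 1)) - 0 - (c + ε / 8) * m * (1 + 0 - lam) -
      (m + 1) * 0)) := by
    refine ((tendsto_const_nhds.sub (tendsto_const_div_atTop_nhds_zero_nat c)).sub
      (Tendsto.const_mul _ ((tendsto_const_nhds.add tendsto_one_div_atTop_nhds_zero_nat).sub
        (hBox K hK hKc)))).sub (Tendsto.const_mul _ (hBad2 K hK hKc _ hp))
  set L : ℝ := c * m * (r / (r + 1)) - 0 - (c + ε / 8) * m * (1 + 0 - lam) - (m + 1) * 0 with hL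
  have hLm : c * lam * m - ε / 4 * m - ε / 8 * m ≤ L := by
    have e1 : (r:ℝ) / (r + 1) = 1 - 1 / (r + 1) := by field_simp; ring
    have e2 : c * m * (r / (r + 1)) = c * m - c / (r + 1) * m := by rw [e1]; ring
    rw [hL, e2]
    have h1 : c / (r + 1) * m ≤ ε / 4 * m := mul_le_mul_of_nonneg_right hcr hm0.le
    have h2 : 0 ≤ ε / 8 * m * lam := by positivity
    nlinarith
  have hev : ∀ᶠ k in atTop, L - ε / 8 * m < F k := hT.eventually (lt_mem_nhds (by
    have : 0 < ε / 8 * m := by positivity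
    linarith))
  obtain ⟨k₀, hk₀⟩ := eventually_atTop.1 hev
  set M : ℝ := L - ε / 8 * m with hM
  refine ⟨min (1 / (m * (k₀ + 1))) (ε / (4 * (|M| + 1))), by positivity, fun δ hδ0 hδ X hX => ?_⟩
  have hδ1 : δ < 1 / (m * (k₀ + 1)) := lt_of_lt_of_le hδ (min_le_left _ _)
  have hδ2 : δ < ε / (4 * (|M| + 1)) := lt_of_lt_of_le hδ (min_le_right _ _)
  set k : ℕ := ⌊1 / (m * δ)⌋₊ with hk
  have hmd : 0 < m * δ := by positivity
  have hk1 : k₀ + 1 ≤ k := by
    apply Nat.le_floor
    push_cast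
    rw [le_div_iff₀ hmd]
    rw [lt_div_iff₀ (by positivity)] at hδ1
    nlinarith
  have hk2 : (k:ℝ) ≤ 1 / (m * δ) := Nat.floor_le (by positivity)
  have hk3 : 1 / (m * δ) < k + 1 := Nat.lt_floor_add_one _
  have hkpos : (0:ℝ) < k := by exact_mod_cast (by omega : 0 < k)
  rw [le_div_iff₀ hmd] at hk2
  rw [div_lt_iff₀ hmd] at hk3
  have hδk : δ ≤ 1 / (m * k) := by
    rw [le_div_iff₀ (by positivity)]; nlinarith
  have hcov : Cov s (1 / ((m:ℝ) * k)) K X := Cov.mono hs0 hδk hX
  have h1 := hLK s hs0 K hK m r k hm1 hr1 (by omega) X hcov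
  have hcell : (cells K k).card ≤ k + 1 := by
    exact cells_card K k
  have h2 : (c * ((m:ℝ) * k * (r / (r + 1)) - 1)) ≤ G s (m * k * r / (r + 1)) := by
    refine le_trans ?_ (hcG _)
    apply mul_le_mul_of_nonneg_left _ hc0.le
    have e1 := Nat.div_add_mod (m * k * r) (r + 1)
    have e2 := Nat.mod_lt (m * k * r) (Nat.succ_pos r)
    have e3 : (((r + 1) * (m * k * r / (r + 1)) + m * k * r % (r + 1) : ℕ) : ℝ) = ((m * k * r : ℕ) : ℝ) := by
      rw [e1]
    have e4 : ((m * k * r % (r + 1) : ℕ) : ℝ) < ((r + 1 : ℕ) : ℝ) := by exact_mod_cast e2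
    push_cast at e3 e4
    have e5 : (m:ℝ) * k * (r / (r + 1)) = (m * k * r) / (r + 1) := by ring
    rw [e5, sub_le_iff_le_add, div_le_iff₀ (by positivity)]
    nlinarith
  have h3 : ((G s (m * k * r / (r + 1)) : ℕ) : ℝ) ≤ X.card + (G s m : ℝ) * (k + 1 - (cells K k).card) +
      (m + 1) * ((bad K k (m * r ^ 2)).card : ℝ) := by
    have := (Nat.cast_le (α := ℝ)).2 h1
    push_cast [Nat.cast_sub hcell] at this
    exact this
  have h4 : (G s m : ℝ) * (k + 1 - (cells K k).card) ≤ (c + ε / 8) * m * (k + 1 - (cells K k).card) := by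
    apply mul_le_mul_of_nonneg_right hm
    have : ((cells K k).card : ℝ) ≤ k + 1 := by exact_mod_cast hcell
    linarith
  have h5 : (k:ℝ) * F k ≤ X.card := by
    have e : (k:ℝ) * F k = c * ((m:ℝ) * k * (r / (r + 1)) - 1) -
        (c + ε / 8) * m * (k + 1 - (cells K k).card) - (m + 1) * ((bad K k (m * r ^ 2)).card : ℝ) := by
      rw [hF]
      field_simp
    rw [e]
    linarith
  have h6 : (k:ℝ) * M ≤ X.card := by
    refine le_trans (mul_le_mul_of_nonneg_left (hk₀ k (by omega)).le hkpos.le) h5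
  have h7 : (k:ℝ) * δ * M ≤ X.card * δ := by nlinarith
  have h8 : M / m - δ * |M| ≤ (k:ℝ) * δ * M := by
    have e1 : (k:ℝ) * δ ≤ 1 / m := by rw [le_div_iff₀ hm0]; nlinarith
    have e2 : 1 / (m:ℝ) - δ ≤ k * δ := by
      rw [sub_le_iff_le_add, div_le_iff₀ hm0]; nlinarith
    rcases le_total 0 M with h | h
    · rw [abs_of_nonneg h]
      have := mul_le_mul_of_nonneg_right e2 h
      have e3 : M / m = 1 / m * M := by ring
      rw [e3]; linarith
    · rw [abs_of_nonpos h]
      have := mul_le_mul_of_nonpos_right e1 h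
      have e3 : M / m = 1 / m * M := by ring
      rw [e3]
      have : 0 ≤ δ * (-M) := mul_nonneg hδ0.le (by linarith)
      linarith
  have h9 : δ * |M| ≤ ε / 4 := by
    have e1 : δ * (4 * (|M| + 1)) < ε := by
      rwa [lt_div_iff₀ (by positivity)] at hδ2
    nlinarith [abs_nonneg M]
  have h10 : c * lam - ε / 4 - ε / 8 - ε / 8 ≤ M / m := by
    rw [le_div_iff₀ hm0, hM]
    nlinarith
  linarith

end Run7.h712.PC
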